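import Pool.Agent.Helper62.DSH.StA

/-!
# Project DSH, module FRM: a global orthonormal frame (Gram-Schmidt)
-/

set_option autoImplicit false

open Helper62.LH Helper62.DSH
open scoped ContDiff

namespace Pool.Agent.Helper63.DSH

namespace FRM

lemma expand {n : ℕ} (v : E n) : v = ∑ i, v i • ee i := by
  ext j
  simp [ee, Finset.sum_apply, Pi.single_apply]

/-- expansion of a bilinear form -/
lemma bil {n : ℕ} (B : Bl n) (u v : E n) : B u v = ∑ i, ∑ j, u i * v j * B (ee i) (ee j) := by
  conv_lhs => rw [expand u, expand v]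
  simp only [map_sum, map_smul, sum_apply, smul_apply,
    smul_eq_mul, Finset.mul_sum]
  rw [Finset.sum_comm]
  refine Finset.sum_congr rfl fun i _ => Finset.sum_congr rfl fun j _ => ?_
  ring

lemma gm_posDef {n : ℕ} (g : E n → Bl n) (hg : IsMet g) (x : E n) : (gm g x).PosDef := by
  refine Matrix.PosDef.of_dotProduct_mulVec_pos ?_ ?_
  · rw [Matrix.IsHermitian, Matrix.conjTranspose_eq_transpose_of_trivial]
    ext i j
    exact hg.symm x _ _
  · intro v hv
    set w : E n := WithLp.toLp 2 v with hw
    have hw0 : w ≠ 0 := by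
      intro h
      apply hv
      funext i
      have := congrArg (fun z : E n => z i) h
      exact this
    have h := hg.pos x w hw0
    rw [bil] at h
    have e : star v ⬝ᵥ (gm g x).mulVec v = ∑ i, ∑ j, w i * w j * g x (ee i) (ee j) := by
      simp only [dotProduct, Matrix.mulVec, Finset.mul_sum]
      refine Finset.sum_congr rfl fun i _ => Finset.sum_congr rfl fun j _ => ?_
      show v i * (g x (ee i) (ee j) * v j) = v i * v j * g x (ee i) (ee j)
      ring
    rw [e]
    exact h

/-- columns of a matrix `P` with `Pᵀ M P = 1` are an orthonormal basis -/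
lemma onb_of {n : ℕ} (g : E n → Bl n) (hg : IsMet g) (x : E n) (P : Matrix (Fin n) (Fin n) ℝ)
    (hP : P.transpose * gm g x * P = 1) :
    Onb g x (fun a => WithLp.toLp 2 (fun i => P i a)) := by
  set M := gm g x with hM
  have hpd : M.PosDef := gm_posDef g hg x
  have hdetM : 0 < M.det := hpd.det_pos
  have hPu : P.det * (M.det * P.det) = 1 := by
    have h := congrArg Matrix.det hP
    rw [Matrix.det_mul, Matrix.det_mul, Matrix.det_transpose, Matrix.det_one] at h
    linarith
  have hMu : IsUnit M.det := isUnit_iff_ne_zero.mpr hdetM.ne'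
  have hPPt : P * P.transpose = M⁻¹ := by
    have h1 : (M * P) * P.transpose = 1 := by
      apply mul_eq_one_comm.mp
      rw [← Matrix.mul_assoc]
      exact hP
    rw [Matrix.mul_assoc] at h1
    exact (Matrix.inv_eq_right_inv h1).symm
  have hPMP : ∀ i j, ∑ k, ∑ l, P k i * P l j * g x (ee k) (ee l) = if i = j then (1 : ℝ) else 0 := by
    intro i j
    have h := congrFun (congrFun hP i) j
    rw [Matrix.one_apply] at h
    rw [← h, Matrix.mul_assoc]
    simp only [Matrix.mul_apply, Matrix.transpose_apply, Finset.mul_sum]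
    refine Finset.sum_congr rfl fun k _ => Finset.sum_congr rfl fun l _ => ?_
    show _ = P k i * (g x (ee k) (ee l) * P l j)
    ring
  refine ⟨?_, ?_, ?_, ?_⟩
  · intro i j
    rw [bil]
    exact hPMP i j
  · intro v
    ext j
    have e1 : ∀ a, g x v (WithLp.toLp 2 (fun i => P i a)) = ∑ k, ∑ l, v l * P k a * g x (ee l) (ee k) := by
      intro a
      rw [bil, Finset.sum_comm]
    have e2 : ∀ a, (g x v (WithLp.toLp 2 (fun i => P i a)) • (WithLp.toLp 2 (fun i => P i a) : E n)) j =
        ∑ k, ∑ l, v l * P k a * g x (ee l) (ee k) * P j a := by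
      intro a
      rw [PiLp.smul_apply, e1, smul_eq_mul, Finset.sum_mul]
      refine Finset.sum_congr rfl fun k _ => ?_
      rw [Finset.sum_mul]
    have e3 : (∑ a, g x v (WithLp.toLp 2 (fun i => P i a)) • (WithLp.toLp 2 (fun i => P i a) : E n)) j =
        ∑ a, ∑ k, ∑ l, v l * P k a * g x (ee l) (ee k) * P j a := by
      rw [WithLp.ofLp_sum, Finset.sum_apply]
      exact Finset.sum_congr rfl fun a _ => e2 a
    rw [e3]
    have e4 : ∑ l, v l * (∑ k, M l k * (P * P.transpose) k j) = v j := by
      have : ∀ l, ∑ k, M l k * (P * P.transpose) k j = (1 : Matrix (Fin n) (Fin n) ℝ) l j := by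
        intro l
        rw [← Matrix.mul_apply, hPPt, Matrix.mul_nonsing_inv _ hMu]
      simp only [this, Matrix.one_apply, mul_ite, mul_one, mul_zero, Finset.sum_ite_eq',
        Finset.mem_univ, if_true]
    rw [← e4]
    simp only [Matrix.mul_apply, Matrix.transpose_apply, Finset.mul_sum]
    rw [Finset.sum_comm]
    have e5 : ∀ k, ∑ a, ∑ l, v l * P k a * g x (ee l) (ee k) * P j a =
        ∑ l, ∑ a, v l * (M l k * (P k a * P j a)) := by
      intro k
      rw [Finset.sum_comm]
      refine Finset.sum_congr rfl fun l _ => Finset.sum_congr rfl fun a _ => ?_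
      show _ = v l * (g x (ee l) (ee k) * (P k a * P j a))
      ring
    rw [Finset.sum_congr rfl fun k _ => e5 k, Finset.sum_comm]
  · intro i j
    show (M⁻¹) i j = _
    rw [← hPPt]
    rfl
  · have hv : vdet (fun a => (WithLp.toLp 2 (fun i => P i a) : E n)) = P.det := by
      rw [vdet, ← Matrix.det_transpose]
      rfl
    rw [hv, vol, mul_pow, Real.sq_sqrt hdetM.le]
    linarith

/-- Gram-Schmidt up to the index `m` -/
lemma gs {n : ℕ} (g : E n → Bl n) (hg : IsMet g) (m : ℕ) (hm : m ≤ n) :
    ∃ F : Fin n → E n → E n, (∀ a, ContDiff ℝ ∞ (F a)) ∧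
      (∀ x (a b : Fin n), (a : ℕ) < m → (b : ℕ) < m →
        g x (F a x) (F b x) = if a = b then 1 else 0) ∧
      (∀ x (a i : Fin n), (a : ℕ) < m → a < i → F a x i = 0) ∧
      (∀ x (a : Fin n), (a : ℕ) < m → 0 < F a x a) := by
  induction m with
  | zero =>
    refine ⟨fun _ _ => 0, fun _ => contDiff_const, ?_, ?_, ?_⟩
    · intro x a b ha; exact absurd ha (Nat.not_lt_zero _)
    · intro x a i ha; exact absurd ha (Nat.not_lt_zero _)
    · intro x a ha; exact absurd ha (Nat.not_lt_zero _)
  | succ m ih =>
    obtain ⟨F, hs, ho, hz, hp⟩ := ih (Nat.le_of_succ_le hm)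
    have hmn : m < n := hm
    set mm : Fin n := ⟨m, hmn⟩ with hmm
    set S : Finset (Fin n) := Finset.univ.filter (fun a => (a : ℕ) < m) with hS
    have memS : ∀ a, a ∈ S ↔ (a : ℕ) < m := by intro a; simp [hS]
    set v : E n → E n := fun x => ee mm - ∑ a ∈ S, g x (ee mm) (F a x) • F a x with hv
    have hvs : ContDiff ℝ ∞ v := by
      refine contDiff_const.sub (ContDiff.sum fun a _ => ?_)
      exact ((hg.smooth.clm_apply contDiff_const).clm_apply (hs a)).smul (hs a)
    have hvi : ∀ x (i : Fin n), m ≤ (i : ℕ) → v x i = if i = mm then 1 else 0 := by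
      intro x i hi
      have h0 : (∑ a ∈ S, g x (ee mm) (F a x) • F a x) i = 0 := by
        rw [WithLp.ofLp_sum, Finset.sum_apply]
        refine Finset.sum_eq_zero fun a ha => ?_
        have ha' := (memS a).mp ha
        have : F a x i = 0 := hz x a i ha' (by
          show (a : ℕ) < (i : ℕ)
          omega)
        rw [PiLp.smul_apply, this, smul_zero]
      show (ee mm - ∑ a ∈ S, g x (ee mm) (F a x) • F a x) i = _
      rw [PiLp.sub_apply, h0, sub_zero]
      simp [ee, Pi.single_apply]
    have hvm : ∀ x, v x mm = 1 := by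
      intro x
      rw [hvi x mm le_rfl, if_pos rfl]
    have hv0 : ∀ x, v x ≠ 0 := by
      intro x h
      have := hvm x
      rw [h] at this
      simp at this
    have hvp : ∀ x, 0 < g x (v x) (v x) := fun x => hg.pos x _ (hv0 x)
    have hvo : ∀ x (b : Fin n), (b : ℕ) < m → g x (v x) (F b x) = 0 := by
      intro x b hb
      show g x (ee mm - ∑ a ∈ S, g x (ee mm) (F a x) • F a x) (F b x) = 0
      rw [map_sub, map_sum]
      simp only [sub_apply, sum_apply, map_smul, smul_apply, smul_eq_mul]
      rw [Finset.sum_eq_single b]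
      · rw [ho x b b hb hb, if_pos rfl, mul_one, sub_self]
      · intro a ha hab
        rw [ho x a b ((memS a).mp ha) hb, if_neg hab, mul_zero]
      · intro h
        exact absurd ((memS b).mpr hb) h
    set N : E n → E n := fun x => (√(g x (v x) (v x)))⁻¹ • v x with hN
    have hNs : ContDiff ℝ ∞ N := by
      have h1 : ContDiff ℝ ∞ (fun x => g x (v x) (v x)) :=
        (hg.smooth.clm_apply hvs).clm_apply hvs
      have h2 : ContDiff ℝ ∞ (fun x => (√(g x (v x) (v x)))⁻¹) :=
        (h1.sqrt (fun x => (hvp x).ne')).inv (fun x => (Real.sqrt_pos.mpr (hvp x)).ne')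
      exact h2.smul hvs
    have hFm : ∀ a : Fin n, (a : ℕ) < m → a ≠ mm := by
      intro a ha h
      rw [h] at ha
      exact lt_irrefl _ ha
    refine ⟨Function.update F mm N, ?_, ?_, ?_, ?_⟩
    · intro a
      by_cases h : a = mm
      · subst h
        rw [Function.update_self]
        exact hNs
      · rw [Function.update_of_ne h]
        exact hs a
    · intro x a b ha hb
      rcases Nat.lt_succ_iff_lt_or_eq.mp ha with ha' | ha'
      · rcases Nat.lt_succ_iff_lt_or_eq.mp hb with hb' | hb'
        · rw [Function.update_of_ne (hFm a ha'), Function.update_of_ne (hFm b hb')]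
          exact ho x a b ha' hb'
        · have hbm : b = mm := Fin.ext hb'
          rw [Function.update_of_ne (hFm a ha'), hbm, Function.update_self, if_neg (hFm a ha'),
            hg.symm]
          show g x ((√(g x (v x) (v x)))⁻¹ • v x) (F a x) = 0
          rw [map_smul, smul_apply, hvo x a ha', smul_zero]
      · have ham : a = mm := Fin.ext ha'
        rcases Nat.lt_succ_iff_lt_or_eq.mp hb with hb' | hb'
        · rw [Function.update_of_ne (hFm b hb'), ham, Function.update_self,
            if_neg (hFm b hb').symm]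
          show g x ((√(g x (v x) (v x)))⁻¹ • v x) (F b x) = 0
          rw [map_smul, smul_apply, hvo x b hb', smul_zero]
        · have hbm : b = mm := Fin.ext hb'
          rw [ham, hbm, Function.update_self, if_pos rfl]
          show g x ((√(g x (v x) (v x)))⁻¹ • v x) ((√(g x (v x) (v x)))⁻¹ • v x) = 1
          rw [map_smul, map_smul, smul_apply, smul_eq_mul, smul_eq_mul, ← mul_assoc,
            ← mul_inv, Real.mul_self_sqrt (hvp x).le]
          exact inv_mul_cancel₀ (hvp x).ne'
    · intro x a i ha hai
      rcases Nat.lt_succ_iff_lt_or_eq.mp ha with ha' | ha'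
      · rw [Function.update_of_ne (hFm a ha')]
        exact hz x a i ha' hai
      · have ham : a = mm := Fin.ext ha'
        subst ham
        rw [Function.update_self]
        show ((√(g x (v x) (v x)))⁻¹ • v x) i = 0
        rw [PiLp.smul_apply, hvi x i (le_of_lt hai), if_neg (ne_of_gt hai), smul_zero]
    · intro x a ha
      rcases Nat.lt_succ_iff_lt_or_eq.mp ha with ha' | ha'
      · rw [Function.update_of_ne (hFm a ha')]
        exact hp x a ha'
      · have ham : a = mm := Fin.ext ha'
        rw [ham, Function.update_self]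
        show 0 < ((√(g x (v x) (v x)))⁻¹ • v x) mm
        rw [PiLp.smul_apply, hvm x, smul_eq_mul, mul_one]
        exact inv_pos.mpr (Real.sqrt_pos.mpr (hvp x))

end FRM

open FRM in
theorem hFrm : TFrm := by
  intro n g hg
  obtain ⟨F, hs, ho, hz, hp⟩ := gs g hg n le_rfl
  have honb : ∀ x, Onb g x (fun a => F a x) := by
    intro x
    have h := onb_of g hg x (Matrix.of fun i a => F a x i) ?_
    · exact h
    · ext i j
      rw [Matrix.one_apply, ← ho x i j i.2 j.2, bil, Matrix.mul_assoc]
      simp only [Matrix.mul_apply, Matrix.transpose_apply, Finset.mul_sum]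
      refine Finset.sum_congr rfl fun k _ => Finset.sum_congr rfl fun l _ => ?_
      show F i x k * (g x (ee k) (ee l) * F j x l) = _
      ring
  refine ⟨F, hs, honb, ?_⟩
  intro x
  have h2 := (honb x).det
  have hv : 0 < vdet (fun a => F a x) := by
    rw [vdet, Matrix.det_of_isLowerTriangular]
    · exact Finset.prod_pos fun a _ => hp x a a.2
    · intro a i hai
      exact hz x a i a.2 (by simpa using hai)
  have hvol : 0 < vol g x := Real.sqrt_pos.mpr (gm_posDef g hg x).det_pos
  nlinarith [mul_pos hvol hv]

end Pool.Agent.Helper63.DSH
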